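import Pool.Agent.Helper73.SumsetI

set_option autoImplicit false

open Filter Topology
open scoped Pointwise

namespace Pool.Agent.Results.MP_29f955_co.NotSharp

/-- The doubling map `D : G → G`, `D g = g + g`. Its range is `2G`, so `(doubling G).range.index` is
`ℓ = [G : 2G]` (with the value `0` meaning infinite index), and `r` is the cardinality of its
kernel. -/
def doubling (G : Type) [AddCommGroup G] : G →+ G where
  toFun g := g + g
  map_zero' := by simp
  map_add' a b := by abel

/-- `Φ` is a Folner sequence in `G`: a sequence of finite nonempty sets with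
`|(g + Φ_N) ∆ Φ_N| / |Φ_N| → 0` for every fixed `g`. -/
structure IsFolner {G : Type} [AddCommGroup G] (Φ : ℕ → Finset G) : Prop where
  nonempty : ∀ N, (Φ N).Nonempty
  invariant : ∀ g : G, Tendsto
    (fun N => ((symmDiff ((fun x => g + x) '' (Φ N : Set G)) (Φ N : Set G)).ncard : ℝ) / (Φ N).card)
    atTop (𝓝 0)

/-- The upper density of `A` along `Φ`: the limit superior of `|A ∩ Φ_N| / |Φ_N|`. -/
noncomputable def upperDensity {G : Type} (Φ : ℕ → Finset G) (A : Set G) : ℝ :=
  limsup (fun N => ((A ∩ (Φ N : Set G)).ncard : ℝ) / (Φ N).card) atTop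

/-- The doubling ratio `α_Φ`: the limit inferior of `#{g ∈ Φ_N : 2g ∈ Φ_N} / |Φ_N|`. -/
noncomputable def doublingRatio {G : Type} [AddCommGroup G] (Φ : ℕ → Finset G) : ℝ :=
  liminf (fun N => (({g | g ∈ Φ N ∧ g + g ∈ Φ N} : Set G).ncard : ℝ) / (Φ N).card) atTop

open Pool.Agent.Helper73 in
/-- the Folner sequence of the counterexample, in `⨁_ℕ 𝔽₅` -/
private noncomputable def Phi (N : ℕ) : Finset (ℕ →₀ ZMod 5) := I N ∪ (I N).image (fun b => b + b)

open Pool.Agent.Helper73

private lemma mem_double {N : ℕ} {g : G} :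
    g ∈ (I N).image (fun b => b + b) ↔ g N = 2 ∧ ∀ i, N < i → g i = 0 := by
  rw [Finset.mem_image]
  constructor
  · rintro ⟨b, hb, rfl⟩
    rw [mem_I'] at hb
    refine ⟨?_, fun i hi => ?_⟩
    · rw [Finsupp.add_apply, hb.1]; decide
    · rw [Finsupp.add_apply, hb.2 i hi, add_zero]
  · rintro ⟨h1, h2⟩
    refine ⟨g + g + g, ?_, ?_⟩
    · rw [mem_I']
      refine ⟨?_, fun i hi => ?_⟩
      · rw [Finsupp.add_apply, Finsupp.add_apply, h1]; decide
      · rw [Finsupp.add_apply, Finsupp.add_apply, h2 i hi]; simp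
    · ext i
      simp only [Finsupp.add_apply]
      generalize g i = a
      revert a; decide

private lemma mem_Phi {N : ℕ} {g : G} :
    g ∈ Phi N ↔ (g N = 1 ∨ g N = 2) ∧ ∀ i, N < i → g i = 0 := by
  rw [Phi, Finset.mem_union, mem_double, mem_I']
  tauto

private lemma disj (N : ℕ) : Disjoint (I N) ((I N).image (fun b => b + b)) := by
  rw [Finset.disjoint_left]
  intro g h1 h2
  rw [mem_I'] at h1
  rw [mem_double] at h2
  have := h1.1.symm.trans h2.1
  exact absurd this (by decide)

private lemma double_inj : Function.Injective (fun b : G => b + b) := by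
  intro a b h
  ext i
  have := DFunLike.congr_fun h i
  simp only [Finsupp.add_apply] at this
  revert this
  generalize a i = x
  generalize b i = y
  revert x y; decide

private lemma card_Phi (N : ℕ) : (Phi N).card = 2 * 5 ^ N := by
  rw [Phi, Finset.card_union_of_disjoint (disj N), Finset.card_image_of_injective _ double_inj, card_I]
  ring

private lemma folner : IsFolner Phi where
  nonempty N := by
    rw [← Finset.card_pos, card_Phi]; positivity
  invariant g := by
    obtain ⟨m, hm⟩ := exists_mem_H g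
    rw [mem_H] at hm
    refine tendsto_const_nhds.congr' ?_
    filter_upwards [eventually_ge_atTop m] with N hN
    have : (fun x => g + x) '' (Phi N : Set G) = (Phi N : Set G) := by
      ext x
      simp only [Set.mem_image, Finset.mem_coe]
      constructor
      · rintro ⟨y, hy, rfl⟩
        rw [mem_Phi] at hy ⊢
        refine ⟨?_, fun i hi => ?_⟩
        · rw [Finsupp.add_apply, hm N hN, zero_add]; exact hy.1
        · rw [Finsupp.add_apply, hm i (by omega), hy.2 i hi, add_zero]
      · intro hx
        refine ⟨-g + x, ?_, by simp⟩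
        rw [mem_Phi] at hx ⊢
        refine ⟨?_, fun i hi => ?_⟩
        · rw [Finsupp.add_apply, Finsupp.neg_apply, hm N hN, neg_zero, zero_add]; exact hx.1
        · rw [Finsupp.add_apply, Finsupp.neg_apply, hm i (by omega), hx.2 i hi]; simp
    rw [this, symmDiff_self]
    simp

private lemma ratio : doublingRatio Phi = 1 / 2 := by
  have h : (fun N => (({g | g ∈ Phi N ∧ g + g ∈ Phi N} : Set G).ncard : ℝ) / (Phi N).card)
      = fun _ => (1 / 2 : ℝ) := by
    funext N
    have h1 : ({g | g ∈ Phi N ∧ g + g ∈ Phi N} : Set G) = (I N : Set G) := by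
      ext g
      simp only [Set.mem_ofPred_eq, Finset.mem_coe, mem_Phi, mem_I', Finsupp.add_apply]
      constructor
      · rintro ⟨⟨h1 | h1, h2⟩, ⟨h3, _⟩⟩
        · exact ⟨h1, h2⟩
        · rw [h1] at h3
          exact absurd h3 (by decide)
      · rintro ⟨h1, h2⟩
        refine ⟨⟨Or.inl h1, h2⟩, ⟨Or.inr ?_, fun i hi => ?_⟩⟩
        · rw [h1]; decide
        · rw [h2 i hi, add_zero]
    rw [h1, Set.ncard_coe_finset, card_I, card_Phi]
    push_cast
    field_simp
  rw [doublingRatio, h, liminf_const]

private lemma range_top : (doubling G).range = ⊤ := by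
  rw [AddMonoidHom.range_eq_top]
  intro g
  refine ⟨g + g + g, ?_⟩
  change (g + g + g) + (g + g + g) = g
  ext i
  simp only [Finsupp.add_apply]
  generalize g i = a
  revert a; decide

private lemma ker_bot : (doubling G).ker = ⊥ := by
  rw [AddMonoidHom.ker_eq_bot_iff]
  exact double_inj

private lemma density_eq (A : Set G) (N : ℕ) :
    ((A ∩ (Phi N : Set G)).ncard : ℝ) / (Phi N).card
      = ((∑ b ∈ I N, ind A b) / 5 ^ N + (∑ b ∈ I N, ind A (b + b)) / 5 ^ N) / 2 := by
  classical
  have h1 : A ∩ (Phi N : Set G) = (((Phi N).filter (fun g => g ∈ A) : Finset G) : Set G) := by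
    ext g; simp [and_comm]
  rw [h1, Set.ncard_coe_finset, card_Phi]
  have h2 : (((Phi N).filter (fun g => g ∈ A)).card : ℝ) = ∑ g ∈ Phi N, ind A g := by
    rw [Finset.card_filter]
    push_cast
    refine Finset.sum_congr rfl fun g _ => ?_
    simp [ind]
  rw [h2, Phi, Finset.sum_union (disj N), Finset.sum_image (fun a _ b _ h => double_inj h)]
  push_cast
  field_simp

/-- **The density threshold is not sharp for every q.i.d. Folner sequence.** There are an infinite
countable abelian group `G` with `ℓ = [G : 2G]` and `r = |ker D|` finite and a Folner sequence `Φ`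
in `G` which is quasi-invariant with respect to doubling, such that every `A ⊆ G` whose upper density
along `Φ` exceeds `(1 - α_Φ / (ℓ + r)) - 1/4` (in particular every `A` of upper density exactly
`1 - α_Φ / (ℓ + r)`) contains `B + B` for some infinite `B`. -/
theorem result :
    ∃ (G : Type) (_ : AddCommGroup G) (_ : Countable G) (_ : Infinite G) (Φ : ℕ → Finset G),
      (doubling G).range.index ≠ 0 ∧ Finite (doubling G).ker ∧
      IsFolner Φ ∧ 0 < doublingRatio Φ ∧
      ∀ A : Set G,
        (1 - doublingRatio Φ / ((doubling G).range.index + Nat.card (doubling G).ker : ℝ)) - 1 / 4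
          < upperDensity Φ A →
        ∃ B : Set G, B.Infinite ∧ B + B ⊆ A := by
  have hinf : Infinite (ℕ →₀ ZMod 5) := by
    refine Infinite.of_injective (fun n : ℕ => (Finsupp.single n 1 : ℕ →₀ ZMod 5)) ?_
    intro a b h
    exact (Finsupp.single_left_inj (by decide : (1 : ZMod 5) ≠ 0)).1 h
  refine ⟨ℕ →₀ ZMod 5, inferInstance, inferInstance, hinf, Phi, ?_, ?_, folner, ?_, ?_⟩
  · rw [range_top]; simp
  · rw [ker_bot]; infer_instance
  · rw [ratio]; norm_num
  · intro A hA
    have h1 : (1 - doublingRatio Phi / ((doubling (ℕ →₀ ZMod 5)).range.index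
        + Nat.card (doubling (ℕ →₀ ZMod 5)).ker : ℝ)) - 1 / 4 = 1 / 2 := by
      rw [ratio, range_top, ker_bot]
      simp; norm_num
    rw [h1] at hA
    obtain ⟨r, hr1, hr2⟩ := exists_between hA
    have hfreq : ∃ᶠ N in atTop, r < ((A ∩ (Phi N : Set G)).ncard : ℝ) / (Phi N).card := by
      apply frequently_lt_of_lt_limsup _ hr2
      refine isCoboundedUnder_le_of_le (x := 0) atTop fun N => by positivity
    set S : Set ℕ := {N | r < ((A ∩ (Phi N : Set G)).ncard : ℝ) / (Phi N).card} with hS
    have hne : (atTop ⊓ 𝓟 S).NeBot := frequently_mem_iff_neBot.1 hfreq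
    have h𝓤 : ((Ultrafilter.of (atTop ⊓ 𝓟 S) : Ultrafilter ℕ) : Filter ℕ) ≤ atTop ⊓ 𝓟 S :=
      Ultrafilter.of_le _
    refine exists_sumset (Ultrafilter.of (atTop ⊓ 𝓟 S)) (h𝓤.trans inf_le_left) A
      (δ := 2 * r - 1) (by linarith) ?_
    have h2 : ∀ᶠ N in ((Ultrafilter.of (atTop ⊓ 𝓟 S) : Ultrafilter ℕ) : Filter ℕ), N ∈ S :=
      (h𝓤.trans inf_le_right) (mem_principal_self _)
    filter_upwards [h2] with N hN
    rw [hS, Set.mem_ofPred_eq, density_eq] at hN
    linarith

end Pool.Agent.Results.MP_29f955_co.NotSharp
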